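import Pool.Agent.Helper89.CV.Pair
import Pool.Agent.Helper33.CV.Perm
import Pool.Agent.Helper4.CV.Stages

/-!
MP_8ee768_co, project TH-Y', stage Z: the stage `(0,0)` without a point of excess 6.

`ZH B x y`: `MM B x = MM B y = 0`, all other points have `8 ≤ MM` (hence `MM = 8`). The pair
driver reduces to pairs of table entries of the types `repA`, `repB`; `orb_dead` reduces these to
representatives under the automorphisms of the type and the swap of the two points.
-/

set_option autoImplicit false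

namespace Pool.Agent.Helper89.CV

open Finset
open Pool.Agent.Helper97.CV
open Pool.Agent.Helper79.CV
open Pool.Agent.Helper33.CV
open Pool.Agent.Helper4.CV
open Pool.Agent.Helper82.TY (below Best)
open Pool.Agent.Helper67.TY (repA repB)

/-- two points with `MM = 0`, all others at least 8 -/
structure ZH (B : Finset (Finset (Fin 13))) (x y : Fin 13) : Prop where
  odd : OddCover B
  ne : x ≠ y
  mm0 : mm B x y = 0
  hx : MM B x = 0
  hy : MM B y = 0
  other : ∀ u, u ≠ x → u ≠ y → 8 ≤ MM B u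
  sum : ∑ z, MM B z ≤ 88

theorem sum_MM_mapF {B : Finset (Finset (Fin 13))} (hB : OddCover B) (σ : Equiv.Perm (Fin 13)) :
    ∑ z, MM (mapF σ B) z = ∑ z, MM B z := by
  rw [← Equiv.sum_comp σ (fun z => MM (mapF σ B) z)]
  exact Finset.sum_congr rfl fun z _ => MM_mapF hB σ z

theorem ZH.inv : Inv₂ ZH := by
  intro σ B x y h
  refine ⟨oddCover_mapF h.odd σ, σ.injective.ne h.ne, ?_, ?_, ?_, ?_, ?_⟩
  · rw [mm_mapF h.odd σ h.ne, h.mm0]
  · rw [MM_mapF h.odd, h.hx]
  · rw [MM_mapF h.odd, h.hy]
  · intro u hu1 hu2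
    obtain ⟨w, rfl⟩ := σ.surjective u
    rw [MM_mapF h.odd]
    exact h.other w (fun e => hu1 (by rw [e])) (fun e => hu2 (by rw [e]))
  · rw [sum_MM_mapF h.odd]
    exact h.sum

theorem ZH.symm (B : Finset (Finset (Fin 13))) (x y : Fin 13) (h : ZH B x y) : ZH B y x :=
  ⟨h.odd, h.ne.symm, by rw [mm_comm, h.mm0], h.hy, h.hx, fun u h1 h2 => h.other u h2 h1, h.sum⟩

/-- the table entries of a list of codes -/
def tabS (l : List ℕ) : Set (Finset (Finset (Fin 13))) := {E | ∃ e ∈ l, E = fam 11 4 e}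

/-- links of points with `MM = 0` (`Ex 0` of Helper25) -/
def zP (D : Finset (Finset (Fin 13))) : Prop := 2 * D.card = 114 + 0

/-- **the heavy part of `(0,0)` from the pairs of table entries** -/
theorem zh_false {lA lB : List ℕ} (hA : TableOK repA 0 zP (tabS lA))
    (hB : TableOK repB 0 zP (tabS lB))
    (hkA : ∀ e ∈ lA, ∀ f ∈ lA, PDead ZH repA (fam 11 4 e) (fam 11 4 f))
    (hkB : ∀ e ∈ lB, ∀ f ∈ lB, PDead ZH repB (fam 11 4 e) (fam 11 4 f))
    {B : Finset (Finset (Fin 13))} {x y : Fin 13} (h : ZH B x y) : False := by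
  obtain ⟨l, hl⟩ : ∃ l : ℕ → List ℕ, l = fun T => if T = repA then lA else lB := ⟨_, rfl⟩
  have hAB : repB ≠ repA := by decide +kernel
  have hlA : l repA = lA := by rw [hl]; exact if_pos rfl
  have hlB : l repB = lB := by rw [hl]; exact if_neg hAB
  refine pair_driver (a := 0) (b := 0) (P := zP) (P' := zP) ?_ (S := fun T => tabS (l T))
    (S' := fun T => tabS (l T)) ?_ ?_ ZH.inv ?_ ?_ h
  · intro σ D hD
    unfold zP at *
    rw [card_mapF]
    exact hD
  · rintro T (rfl | rfl)
    · show TableOK _ _ _ (tabS (l repA))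
      rw [hlA]; exact hA
    · show TableOK _ _ _ (tabS (l repB))
      rw [hlB]; exact hB
  · rintro T (rfl | rfl)
    · show TableOK _ _ _ (tabS (l repA))
      rw [hlA]; exact hA
    · show TableOK _ _ _ (tabS (l repB))
      rw [hlB]; exact hB
  · intro B x y h
    have h1 := two_mul_card_link h.odd x
    have h2 := two_mul_card_link h.odd y
    rw [h.hx] at h1
    rw [h.hy] at h2
    exact ⟨h.odd, h.ne, h.mm0, by rw [h.hx], by rw [h.hy], h1, h2⟩
  · rintro T (rfl | rfl)
    · rintro u ⟨e, he, rfl⟩ v ⟨f, hf, rfl⟩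
      rw [hlA] at he hf
      exact hkA e he f hf
    · rintro u ⟨e, he, rfl⟩ v ⟨f, hf, rfl⟩
      rw [hlB] at he hf
      exact hkB e he f hf

/-- the stage `(0,0)` from the case with a point `MM = 6` and the heavy case -/
theorem st00_of (h6 : ∀ B x y, TwoS B x y 0 0 → ∀ z, MM B z = 6 → False)
    (h8 : ∀ B x y, ZH B x y → False) : St00 := by
  intro B x y h
  have hodd : OddCover B := h.best.odd
  refine h8 B x y ⟨hodd, h.ne, h.ind x y h.ne (by rw [h.hx]; omega) (by rw [h.hy]; omega),
    h.hx, h.hy, ?_, h.sum.le⟩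
  intro u hx hy
  have h1 := h.other u hx hy
  have h2 := MM_even hodd u
  have h3 : MM B u ≠ 6 := fun e => h6 B x y h u e
  obtain ⟨k, hk⟩ := h2
  omega

/-! ## orbits -/

/-- `s` is the list of the values of an automorphism of `fam 11 3 T` fixing 11 and 12, and `im` its
action on the table -/
def actOK (T : ℕ) (tab : List ℕ) (a : List ℕ × List ℕ) : Bool :=
  okPerm a.1 && (Nat.beq (a.1.getD 11 0) 11 && (Nat.beq (a.1.getD 12 0) 12 &&
    (Nat.beq (relab 11 3 a.1 T) T && (List.range tab.length).all fun i =>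
      Nat.beq (relab 11 4 a.1 (tab.getD i 0)) (tab.getD (a.2.getD i 0) 0))))

/-- the set of the pairs as a number -/
def bitsL (n : ℕ) : List (ℕ × ℕ) → ℕ
  | [] => 0
  | p :: l => Nat.lor (2 ^ (n * p.1 + p.2)) (bitsL n l)

/-- every pair is carried to a pair of the list -/
def covOK (n R : ℕ) (acts : List (List ℕ × List ℕ)) : Bool :=
  (List.range n).all fun i => (List.range n).all fun j => Nat.blt i j || acts.any fun a =>
    R.testBit (n * a.2.getD i 0 + a.2.getD j 0) || R.testBit (n * a.2.getD j 0 + a.2.getD i 0)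

theorem testBit_bitsL {n : ℕ} {l : List (ℕ × ℕ)} {k : ℕ} (h : (bitsL n l).testBit k = true) :
    ∃ p ∈ l, n * p.1 + p.2 = k := by
  induction l with
  | nil =>
    unfold bitsL at h
    rw [Nat.zero_testBit] at h
    exact absurd h Bool.false_ne_true
  | cons p l ih =>
    have e : bitsL n (p :: l) = 2 ^ (n * p.1 + p.2) ||| bitsL n l := rfl
    rw [e, Nat.testBit_or, Bool.or_eq_true, Nat.testBit_two_pow, decide_eq_true_eq] at h
    rcases h with h | h
    · exact ⟨p, List.mem_cons_self, h⟩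
    · obtain ⟨q, hq, hq2⟩ := ih h
      exact ⟨q, List.mem_cons_of_mem _ hq, hq2⟩

theorem actOK_sound {T : ℕ} {tab : List ℕ} {a : List ℕ × List ℕ} (h : actOK T tab a = true) :
    ∃ σ : Equiv.Perm (Fin 13), σ 12 = 12 ∧ σ 11 = 11 ∧ mapF σ (fam 11 3 T) = fam 11 3 T ∧
      ∀ i < tab.length, mapF σ (fam 11 4 (tab.getD i 0)) = fam 11 4 (tab.getD (a.2.getD i 0) 0) := by
  unfold actOK at h
  simp only [Bool.and_eq_true, List.all_eq_true, List.mem_range, Nat.beq_eq] at h
  obtain ⟨h1, h2, h3, h4, h5⟩ := h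
  obtain ⟨σ, hσ⟩ := exists_perm h1
  have h11 : σ 11 = 11 := by
    apply Fin.ext
    rw [← hσ] at h2
    simpa [valL] using h2
  have h12 : σ 12 = 12 := by
    apply Fin.ext
    rw [← hσ] at h3
    simpa [valL] using h3
  have hk : Keeps 11 σ := by
    intro b hb
    by_contra h6
    have h7 : σ b = 11 ∨ σ b = 12 := by
      have h8 := (σ b).isLt
      have h9 : (σ b).val = 11 ∨ (σ b).val = 12 := by omega
      rcases h9 with h9 | h9
      · exact Or.inl (Fin.ext h9)
      · exact Or.inr (Fin.ext h9)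
    rcases h7 with h7 | h7
    · have h8 := σ.injective (h7.trans h11.symm)
      rw [h8] at hb
      exact absurd hb (by decide)
    · have h8 := σ.injective (h7.trans h12.symm)
      rw [h8] at hb
      exact absurd hb (by decide)
  refine ⟨σ, h12, h11, ?_, ?_⟩
  · rw [← fam_relab (by norm_num) hk, hσ, h4]
  · intro i hi
    rw [← fam_relab (by norm_num) hk, hσ, h5 i hi]

/-- **the orbit reduction** -/
theorem orb_dead {T : ℕ} {tab : List ℕ}
    {acts : List (List ℕ × List ℕ)} {R : List (ℕ × ℕ)}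
    (ha : acts.all (actOK T tab) = true) (hc : covOK tab.length (bitsL tab.length R) acts = true)
    (him : acts.all (fun a => a.2.all (fun j => Nat.blt j tab.length)) = true)
    (hRl : R.all (fun p => Nat.blt p.1 tab.length && Nat.blt p.2 tab.length) = true)
    (hR : ∀ p ∈ R, PDead ZH T (fam 11 4 (tab.getD p.1 0)) (fam 11 4 (tab.getD p.2 0))) :
    ∀ e ∈ tab, ∀ f ∈ tab, PDead ZH T (fam 11 4 e) (fam 11 4 f) := by
  have hn0 : ∀ a b c d n : ℕ, b < n → d < n → n * a + b = n * c + d → a = c ∧ b = d := by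
    intro a b c d n hb hd h
    have h1 : (n * a + b) / n = (n * c + d) / n := by rw [h]
    have h2 : (n * a + b) % n = (n * c + d) % n := by rw [h]
    rw [Nat.mul_add_div (by omega), Nat.mul_add_div (by omega), Nat.div_eq_of_lt hb,
      Nat.div_eq_of_lt hd] at h1
    rw [Nat.mul_add_mod, Nat.mul_add_mod, Nat.mod_eq_of_lt hb, Nat.mod_eq_of_lt hd] at h2
    omega
  have key : ∀ i < tab.length, ∀ j < tab.length, j ≤ i →
      PDead ZH T (fam 11 4 (tab.getD i 0)) (fam 11 4 (tab.getD j 0)) := by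
    intro i hi j hj hji
    unfold covOK at hc
    rw [List.all_eq_true] at hc
    have h1 := hc i (List.mem_range.2 hi)
    rw [List.all_eq_true] at h1
    have h2 := h1 j (List.mem_range.2 hj)
    rw [Bool.or_eq_true] at h2
    rcases h2 with h2 | h2
    · rw [Nat.blt_eq] at h2
      omega
    rw [List.any_eq_true] at h2
    obtain ⟨a, haa, h3⟩ := h2
    obtain ⟨σ, h12, h11, hT', hact⟩ := actOK_sound (List.all_eq_true.1 ha a haa)
    have hlt : ∀ k, a.2.getD k 0 < tab.length := by
      intro k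
      rcases lt_or_ge k a.2.length with h4 | h4
      · rw [List.getD_eq_getElem _ _ h4]
        have h5 := List.all_eq_true.1 (List.all_eq_true.1 him a haa) _ (List.getElem_mem h4)
        rwa [Nat.blt_eq] at h5
      · rw [List.getD_eq_default _ _ h4]
        omega
    refine PDead.map ZH.inv σ h12 h11 hT' ?_
    rw [hact i hi, hact j hj]
    rw [Bool.or_eq_true] at h3
    have hRl' : ∀ p ∈ R, p.1 < tab.length ∧ p.2 < tab.length := by
      intro p hp
      have h5 := List.all_eq_true.1 hRl p hp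
      rw [Bool.and_eq_true, Nat.blt_eq, Nat.blt_eq] at h5
      exact h5
    rcases h3 with h3 | h3
    · obtain ⟨p, hp, hp2⟩ := testBit_bitsL h3
      obtain ⟨e1, e2⟩ := hn0 _ _ _ _ _ (hRl' p hp).2 (hlt j) hp2
      have h5 := hR p hp
      rwa [e1, e2] at h5
    · obtain ⟨p, hp, hp2⟩ := testBit_bitsL h3
      obtain ⟨e1, e2⟩ := hn0 _ _ _ _ _ (hRl' p hp).2 (hlt i) hp2
      have h5 := hR p hp
      rw [e1, e2] at h5
      exact PDead.swap ZH.inv ZH.symm h5
  intro e he f hf
  obtain ⟨i, hi, rfl⟩ := List.mem_iff_getElem.1 he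
  obtain ⟨j, hj, rfl⟩ := List.mem_iff_getElem.1 hf
  rcases le_total j i with h | h
  · have h1 := key i hi j hj h
    rwa [List.getD_eq_getElem _ _ hi, List.getD_eq_getElem _ _ hj] at h1
  · have h1 := key j hj i hi h
    rw [List.getD_eq_getElem _ _ hi, List.getD_eq_getElem _ _ hj] at h1
    exact PDead.swap ZH.inv ZH.symm h1

end Pool.Agent.Helper89.CV
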