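import Pool.Agent.Helper79.CV.Star
import Pool.Agent.Helper58.TB.NearOK
import Pool.Agent.Helper67.TY.Root

/-!
MP_8ee768_co, project TH-Y': the pair driver.

Two points `x, y` of a cover with `mm B x y = 0` and small excess: they are moved to `12` and `11`,
the common link becomes `fam 11 3 repA` or `fam 11 3 repB`, and the two sides (the parts of the
links avoiding the other point, families of 4-subsets of `{0, .., 10}`) lie in the verified
tables. `PDead` is invariant under swapping the two points and under automorphisms of the common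
link.
-/

set_option autoImplicit false

namespace Pool.Agent.Helper89.CV

open Finset
open Pool.Agent.Helper97.CV
open Pool.Agent.Helper79.CV
open Pool.Agent.Helper82.TY (below)
open Pool.Agent.Helper67.TY (repA repB)

/-- the part of the link of `p` avoiding `q` -/
def side (B : Finset (Finset (Fin 13))) (p q : Fin 13) : Finset (Finset (Fin 13)) :=
  (link B p).filter (fun s => q ∉ s)

theorem mem_side {B : Finset (Finset (Fin 13))} {p q : Fin 13} {s : Finset (Fin 13)} :
    s ∈ side B p q ↔ insert p s ∈ B ∧ p ∉ s ∧ q ∉ s := by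
  unfold side
  rw [mem_filter, mem_link]
  tauto

theorem side_mapF (σ : Equiv.Perm (Fin 13)) (B : Finset (Finset (Fin 13))) (p q : Fin 13) :
    side (mapF σ B) (σ p) (σ q) = mapF σ (side B p q) := by
  unfold side
  rw [link_mapF]
  refine (mapF_filter σ _ _ _ fun s => ?_).symm
  rw [not_iff_not, mem_mapS', Equiv.symm_apply_apply]

theorem swap_fix {F : Finset (Finset (Fin 13))} (h : ∀ s ∈ F, (12 : Fin 13) ∉ s ∧ (11 : Fin 13) ∉ s) :
    mapF (Equiv.swap 11 12) F = F := by
  refine mapF_eq_self fun s hs a ha => ?_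
  refine Equiv.swap_apply_of_ne_of_ne ?_ ?_
  · rintro rfl
    exact (h s hs).2 ha
  · rintro rfl
    exact (h s hs).1 ha

theorem side_fix₁ (B : Finset (Finset (Fin 13))) :
    mapF (Equiv.swap 11 12) (side B 12 11) = side B 12 11 :=
  swap_fix fun _ hs => ⟨(mem_side.1 hs).2.1, (mem_side.1 hs).2.2⟩

theorem side_fix₂ (B : Finset (Finset (Fin 13))) :
    mapF (Equiv.swap 11 12) (side B 11 12) = side B 11 12 :=
  swap_fix fun _ hs => ⟨(mem_side.1 hs).2.2, (mem_side.1 hs).2.1⟩

theorem link_link_fix (B : Finset (Finset (Fin 13))) :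
    mapF (Equiv.swap 11 12) (link (link B 12) 11) = link (link B 12) 11 :=
  swap_fix fun _ hs => ⟨((mem_link_link.1 hs).1), ((mem_link_link.1 hs).2.1)⟩


/-- relabelling invariant statements about a cover and two points -/
def Inv₂ (Q : Finset (Finset (Fin 13)) → Fin 13 → Fin 13 → Prop) : Prop :=
  ∀ (σ : Equiv.Perm (Fin 13)) (B : Finset (Finset (Fin 13))) (x y : Fin 13),
    Q B x y → Q (mapF σ B) (σ x) (σ y)

/-- no cover with `Q` has the pair root `(T; u, v)` -/
def PDead (Q : Finset (Finset (Fin 13)) → Fin 13 → Fin 13 → Prop) (T : ℕ)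
    (u v : Finset (Finset (Fin 13))) : Prop :=
  ∀ B : Finset (Finset (Fin 13)), Q B 12 11 → link (link B 12) 11 = fam 11 3 T →
    side B 12 11 = u → side B 11 12 = v → False

variable {Q : Finset (Finset (Fin 13)) → Fin 13 → Fin 13 → Prop} {T : ℕ}
  {u v : Finset (Finset (Fin 13))}

theorem PDead.swap (hQ : Inv₂ Q) (hs : ∀ B x y, Q B x y → Q B y x) (h : PDead Q T u v) :
    PDead Q T v u := by
  intro B hB hl h1 h2
  have e12 : (Equiv.swap (11 : Fin 13) 12) 12 = 11 := Equiv.swap_apply_right _ _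
  have e11 : (Equiv.swap (11 : Fin 13) 12) 11 = 12 := Equiv.swap_apply_left _ _
  refine h (mapF (Equiv.swap 11 12) B) ?_ ?_ ?_ ?_
  · have h3 := hQ (Equiv.swap 11 12) B 11 12 (hs _ _ _ hB)
    rwa [e11, e12] at h3
  · have h3 : link (link (mapF (Equiv.swap 11 12) B) 12) 11 =
        mapF (Equiv.swap 11 12) (link (link B 11) 12) := by
      have h4 := link_mapF (Equiv.swap (11 : Fin 13) 12) (link B 11) 12
      have h5 := link_mapF (Equiv.swap (11 : Fin 13) 12) B 11
      rw [e12] at h4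
      rw [e11] at h5
      rw [h5, h4]
    rw [h3, ← link_comm, link_link_fix, hl]
  · have h3 := side_mapF (Equiv.swap (11 : Fin 13) 12) B 11 12
    rw [e11, e12, side_fix₂, h2] at h3
    exact h3
  · have h3 := side_mapF (Equiv.swap (11 : Fin 13) 12) B 12 11
    rw [e11, e12, side_fix₁, h1] at h3
    exact h3

theorem PDead.map (hQ : Inv₂ Q) (τ : Equiv.Perm (Fin 13)) (h12 : τ 12 = 12) (h11 : τ 11 = 11)
    (hT : mapF τ (fam 11 3 T) = fam 11 3 T) (h : PDead Q T (mapF τ u) (mapF τ v)) :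
    PDead Q T u v := by
  intro B hB hl h1 h2
  refine h (mapF τ B) ?_ ?_ ?_ ?_
  · have h3 := hQ τ B 12 11 hB
    rwa [h12, h11] at h3
  · have h3 := link_mapF τ B 12
    rw [h12] at h3
    have h4 := link_mapF τ (link B 12) 11
    rw [h11] at h4
    rw [h3, h4, hl, hT]
  · have h3 := side_mapF τ B 12 11
    rw [h12, h11, h1] at h3
    exact h3
  · have h3 := side_mapF τ B 11 12
    rw [h12, h11, h2] at h3
    exact h3

/-- **the pair driver** -/
theorem pair_driver {a b : ℕ} {P P' : Finset (Finset (Fin 13)) → Prop}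
    (hP' : Inv P') {S S' : ℕ → Set (Finset (Finset (Fin 13)))}
    (hx : ∀ T, T = repA ∨ T = repB → TableOK T a P (S T))
    (hy : ∀ T, T = repA ∨ T = repB → TableOK T b P' (S' T)) (hQ : Inv₂ Q)
    (hQB : ∀ B x y, Q B x y → OddCover B ∧ x ≠ y ∧ mm B x y = 0 ∧ MM B x ≤ a ∧ MM B y ≤ b ∧
      P (link B x) ∧ P' (link B y))
    (hk : ∀ T, T = repA ∨ T = repB → ∀ u ∈ S T, ∀ v ∈ S' T, PDead Q T u v)
    {B : Finset (Finset (Fin 13))} {x y : Fin 13} (h : Q B x y) : False := by
  obtain ⟨hB, hxy, hm, -⟩ := hQB _ _ _ h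
  obtain ⟨σ, hσx, hσy⟩ := exists_perm_two hxy (show (12 : Fin 13) ≠ 11 by decide)
  have hBσ := oddCover_mapF hB σ
  have h2 := Pool.Agent.Helper79.CV.card_link_link hBσ (show (12 : Fin 13) ≠ 11 by decide)
  have h3 : mm (mapF σ B) 12 11 = 0 := by
    have h4 := mm_mapF hB σ hxy
    rw [hσx, hσy] at h4
    omega
  rw [h3] at h2
  obtain ⟨τ, hτ12, hτ11, hτ⟩ := Pool.Agent.Helper58.TB.nearOK _
    (Pool.Agent.Helper67.TY.oddFam_pair hBσ) h2
  obtain ⟨B', hB'⟩ : ∃ B', B' = mapF (τ * σ) B := ⟨_, rfl⟩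
  have hQ' : Q B' 12 11 := by
    have h4 := hQ (τ * σ) B x y h
    rw [Equiv.Perm.mul_apply, Equiv.Perm.mul_apply, hσx, hσy, hτ12, hτ11] at h4
    rwa [hB']
  have hl : link (link B' 12) 11 = mapF τ (link (link (mapF σ B) 12) 11) := by
    have h4 := link_mapF τ (mapF σ B) 12
    rw [hτ12] at h4
    have h5 := link_mapF τ (link (mapF σ B) 12) 11
    rw [hτ11] at h5
    rw [hB', mapF_mul, h4, h5]
  obtain ⟨T, hT, hlT⟩ : ∃ T, (T = repA ∨ T = repB) ∧ link (link B' 12) 11 = fam 11 3 T := by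
    rcases hτ with h4 | h4
    · exact ⟨repA, Or.inl rfl, by rw [hl, h4]⟩
    · exact ⟨repB, Or.inr rfl, by rw [hl, h4]⟩
  obtain ⟨hBo, -, -, ha, hb, hPx, hPy⟩ := hQB _ _ _ hQ'
  refine hk T hT (side B' 12 11) ?_ (side B' 11 12) ?_ B' hQ' hlT rfl rfl
  · refine hx T hT (link B' 12) ?_ hlT ?_ hPx
    · rw [below_twelve]
      exact oddFam_link hBo 12
    · have h4 := two_mul_card_link hBo 12
      omega
  · have e12 : (Equiv.swap (11 : Fin 13) 12) 12 = 11 := Equiv.swap_apply_right _ _
    have e11 : (Equiv.swap (11 : Fin 13) 12) 11 = 12 := Equiv.swap_apply_left _ _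
    obtain ⟨B'', hB''⟩ : ∃ B'', B'' = mapF (Equiv.swap 11 12) B' := ⟨_, rfl⟩
    have hBo' : OddCover B'' := by
      rw [hB'']
      exact oddCover_mapF hBo _
    have hlk : link B'' 12 = mapF (Equiv.swap 11 12) (link B' 11) := by
      have h4 := link_mapF (Equiv.swap (11 : Fin 13) 12) B' 11
      rw [e11] at h4
      rw [hB'', h4]
    have hl2 : link (link B'' 12) 11 = fam 11 3 T := by
      have h4 := link_mapF (Equiv.swap (11 : Fin 13) 12) (link B' 11) 12
      rw [e12] at h4
      rw [hlk, h4, ← link_comm, link_link_fix, hlT]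
    have h5 := hy T hT (link B'' 12) (by
      rw [below_twelve]
      exact oddFam_link hBo' 12) hl2 (by
      have h4 := two_mul_card_link hBo 11
      rw [hlk, card_mapF]
      omega) (by
      rw [hlk]
      exact hP' _ _ hPy)
    have h6 : (link B'' 12).filter (fun s => (11 : Fin 13) ∉ s) = side B' 11 12 := by
      have h7 := side_mapF (Equiv.swap (11 : Fin 13) 12) B' 11 12
      rw [e11, e12, side_fix₂, ← hB''] at h7
      exact h7
    rwa [h6] at h5

end Pool.Agent.Helper89.CV
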