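import Mathlib

/-!
MP_8ee768_co, project CV (thread TH-Y): reduction of the frozen statement S10098 to the finite fact
`every odd (13,5,4)-cover has at least 159 blocks`.

Complement language: the complements of the 8-sets of `Fin 13` outside a family `H` are 5-sets
(blocks). `H` has no complete 9-set iff the blocks cover every 4-set; every 9-set contains an
even number of members of `H` iff every 4-set lies in an odd number of blocks. `blocks` is an
explicit cover with 158 blocks (found by helper4).
-/

set_option autoImplicit false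

namespace Pool.Agent.Helper89.CV

open Finset

/-- an odd `(13,5,4)`-cover: a family of 5-subsets of `Fin 13` such that every 4-subset lies in an
odd number of members -/
def OddCover (B : Finset (Finset (Fin 13))) : Prop :=
  (∀ b ∈ B, b.card = 5) ∧ ∀ q : Finset (Fin 13), q.card = 4 → Odd (B.filter fun b => q ⊆ b).card

/-- the 158 blocks as bit masks -/
def masks : List ℕ :=
  [4123, 4135, 4156, 4174, 4210, 4245, 4265, 4291, 4312, 4359, 4408, 4425,
   4498, 4548, 4576, 4630, 4657, 4677, 4712, 4746, 4772, 4876, 4898, 4944,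
   4993, 5133, 5162, 5201, 5220, 5254, 5296, 5396, 5409, 5442, 5512, 5635,
   5656, 5824, 6151, 6200, 6228, 6241, 6284, 6306, 6410, 6417, 6436, 6592,
   6665, 6722, 6800, 7186, 7240, 7297, 7684, 7712, 7936, 117, 171, 173,
   182, 199, 203, 218, 248, 285, 307, 342, 364, 398, 465, 481,
   482, 527, 570, 601, 614, 659, 668, 724, 737, 805, 835, 842,
   905, 916, 936, 944, 962, 1047, 1070, 1081, 1116, 1123, 1129, 1177,
   1226, 1228, 1249, 1291, 1306, 1322, 1349, 1392, 1411, 1444, 1480, 1577,
   1588, 1612, 1618, 1669, 1698, 1798, 1809, 1888, 1928, 2078, 2125, 2131,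
   2154, 2187, 2225, 2276, 2342, 2345, 2356, 2392, 2437, 2456, 2497, 2498,
   2581, 2595, 2604, 2672, 2694, 2760, 2834, 2840, 2884, 2945, 2976, 3097,
   3109, 3122, 3142, 3218, 3220, 3240, 3280, 3331, 3340, 3424, 3472, 3594,
   3649, 3728]

/-- the subset of `Fin 13` of a bit mask -/
def ofMask (m : ℕ) : Finset (Fin 13) := Finset.univ.filter fun i => m.testBit i.val = true

/-- the 158 blocks -/
def blocks : Finset (Finset (Fin 13)) := (masks.map ofMask).toFinset

/-- the covering check, nested filters -/
def check : Bool :=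
  (List.range 13).all fun i =>
    let Li := masks.filter (fun m => m.testBit i)
    (List.range i).all fun j =>
      let Lj := Li.filter (fun m => m.testBit j)
      (List.range j).all fun k =>
        let Lk := Lj.filter (fun m => m.testBit k)
        (List.range k).all fun l => Lk.any (fun m => m.testBit l)

theorem check_eq : check = true := by decide +kernel

theorem exists_mask (i j k l : Fin 13) (hji : j < i) (hkj : k < j) (hlk : l < k) :
    ∃ m ∈ masks, m.testBit i.val = true ∧
    m.testBit j.val = true ∧ m.testBit k.val = true ∧ m.testBit l.val = true := by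
  have h := check_eq
  unfold check at h
  simp only [List.all_eq_true, List.any_eq_true, List.mem_range, List.mem_filter] at h
  obtain ⟨m, ⟨⟨⟨hm, h1⟩, h2⟩, h3⟩, h4⟩ := h i.val i.isLt j.val hji k.val hkj l.val hlk
  exact ⟨m, hm, h1, h2, h3, h4⟩

theorem blocks_card_le : blocks.card ≤ 158 := by
  refine (List.toFinset_card_le _).trans ?_
  rw [List.length_map]
  exact le_of_eq (by decide +kernel)

theorem exists_block (q : Finset (Fin 13)) (hq : q.card = 4) : ∃ b ∈ blocks, q ⊆ b := by
  have hlt : ∀ s t : Fin 4, s < t → q.orderEmbOfFin hq s < q.orderEmbOfFin hq t :=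
    fun s t hst => (q.orderEmbOfFin hq).lt_iff_lt.2 hst
  obtain ⟨m, hm, h1, h2, h3, h4⟩ := exists_mask _ _ _ _ (hlt 2 3 (by decide))
    (hlt 1 2 (by decide)) (hlt 0 1 (by decide))
  refine ⟨ofMask m, ?_, ?_⟩
  · unfold blocks
    rw [List.mem_toFinset]
    exact List.mem_map_of_mem hm
  · intro a ha
    have h5 : a ∈ Set.range (q.orderEmbOfFin hq) := by
      rw [Finset.range_orderEmbOfFin]
      exact ha
    obtain ⟨t, rfl⟩ := h5
    unfold ofMask
    rw [Finset.mem_filter]
    refine ⟨Finset.mem_univ _, ?_⟩
    match t with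
    | 0 => exact h4
    | 1 => exact h3
    | 2 => exact h2
    | 3 => exact h1

/-- the number of bits below 13 -/
def pc (m : ℕ) : ℕ := ((List.range 13).map fun i => if m.testBit i = true then 1 else 0).sum

theorem ofMask_card (m : ℕ) : (ofMask m).card = pc m := by
  unfold ofMask pc
  rw [Finset.card_filter, Fin.sum_univ_def, ← List.map_coe_finRange_eq_range, List.map_map]
  rfl

theorem pc_masks : masks.all (fun m => pc m == 5) = true := by decide +kernel

theorem card_eight : (Finset.powersetCard 8 (Finset.univ : Finset (Fin 13))).card = 1287 := by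
  rw [Finset.card_powersetCard, Finset.card_univ, Fintype.card_fin]
  norm_num [Nat.choose]

theorem aux_card {a b : ℕ} (h1 : a + b = 1287) (h3 : a ≤ 158) : 1129 ≤ b := by omega

theorem aux_final {h b c : ℕ} (h1 : 159 ≤ b) (h2 : b + c = 1287) (h3 : 1129 ≤ h) : ¬ h ≤ c := by
  omega

theorem card_aux (Bl : Finset (Finset (Fin 13))) (hBl : Bl.card ≤ 158) :
    1129 ≤ ((Finset.powersetCard 8 (Finset.univ : Finset (Fin 13))).filter
      fun e => eᶜ ∉ Bl).card := by
  have h1 := Finset.card_filter_add_card_filter_not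
    (s := Finset.powersetCard 8 (Finset.univ : Finset (Fin 13))) (fun e => eᶜ ∈ Bl)
  have h2 : ((Finset.powersetCard 8 (Finset.univ : Finset (Fin 13))).filter
      (fun e => eᶜ ∈ Bl)).card ≤ Bl.card := by
    refine Finset.card_le_card_of_injOn (fun e => eᶜ) ?_ ?_
    · intro e he
      exact (Finset.mem_filter.1 he).2
    · intro a _ b _ hab
      exact compl_injective hab
  rw [card_eight] at h1
  exact aux_card h1 (h2.trans hBl)

theorem free_aux (Bl : Finset (Finset (Fin 13))) (h5 : ∀ b ∈ Bl, b.card = 5)
    (hcov : ∀ q : Finset (Fin 13), q.card = 4 → ∃ b ∈ Bl, q ⊆ b) (S : Finset (Fin 13))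
    (hS : S.card = 8 + 1) : ¬ (S.powersetCard 8 ⊆
      (Finset.powersetCard 8 (Finset.univ : Finset (Fin 13))).filter fun e => eᶜ ∉ Bl) := by
  intro hsub
  have hc : Sᶜ.card = 4 := by
    rw [Finset.card_compl, hS, Fintype.card_fin]
  obtain ⟨b, hb, hqb⟩ := hcov Sᶜ hc
  have h8 : bᶜ ∈ S.powersetCard 8 := by
    rw [Finset.mem_powersetCard]
    refine ⟨?_, ?_⟩
    · have := Finset.compl_subset_compl.2 hqb
      rwa [compl_compl] at this
    · rw [Finset.card_compl, h5 b hb, Fintype.card_fin]
  have h9 := hsub h8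
  rw [Finset.mem_filter, compl_compl] at h9
  exact h9.2 hb

theorem card_blocks_mem (b : Finset (Fin 13)) (hb : b ∈ blocks) : b.card = 5 := by
  obtain ⟨m, hm, rfl⟩ := List.mem_map.1 (List.mem_toFinset.1 hb)
  rw [ofMask_card]
  have hall := pc_masks
  rw [List.all_eq_true] at hall
  exact beq_iff_eq.1 (hall m hm)

/-- the Turán example exists: 1129 edges, no complete 9-set -/
theorem exists_H : ∃ H : Finset (Finset (Fin 13)), (∀ e ∈ H, e.card = 8) ∧
    (∀ S : Finset (Fin 13), S.card = 8 + 1 → ¬ (S.powersetCard 8 ⊆ H)) ∧ 1129 ≤ H.card :=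
  ⟨_, fun _ he => (Finset.mem_powersetCard.1 (Finset.mem_filter.1 he).1).2,
    free_aux blocks card_blocks_mem exists_block, card_aux blocks blocks_card_le⟩

/-- the blocks of a family of 8-sets -/
def blocksOf (C : Finset (Finset (Fin 13))) : Finset (Finset (Fin 13)) :=
  ((Finset.powersetCard 8 Finset.univ) \ C).image fun e => eᶜ

theorem blocksOf_card (C : Finset (Finset (Fin 13))) (hC : ∀ e ∈ C, e.card = 8) :
    (blocksOf C).card + C.card = 1287 := by
  unfold blocksOf
  rw [Finset.card_image_of_injective _ compl_injective]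
  have hsub : C ⊆ Finset.powersetCard 8 (Finset.univ : Finset (Fin 13)) := by
    intro e he
    rw [Finset.mem_powersetCard]
    exact ⟨Finset.subset_univ _, hC e he⟩
  rw [Finset.card_sdiff_add_card_eq_card hsub, card_eight]

theorem oddCover_blocksOf (C : Finset (Finset (Fin 13))) (hC : ∀ e ∈ C, e.card = 8)
    (heven : ∀ S : Finset (Fin 13), S.card = 8 + 1 →
      Even ((C.filter (fun e => e ⊆ S)).card)) : OddCover (blocksOf C) := by
  constructor
  · intro b hb
    unfold blocksOf at hb
    obtain ⟨e, he, rfl⟩ := Finset.mem_image.1 hb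
    have h1 := (Finset.mem_powersetCard.1 (Finset.mem_sdiff.1 he).1).2
    rw [Finset.card_compl, h1, Fintype.card_fin]
  · intro q hq
    have hS : qᶜ.card = 8 + 1 := by
      rw [Finset.card_compl, hq, Fintype.card_fin]
    have h1 := heven qᶜ hS
    have h2 : (blocksOf C).filter (fun b => q ⊆ b) =
        ((qᶜ.powersetCard 8) \ (C.filter (fun e => e ⊆ qᶜ))).image fun e => eᶜ := by
      ext b
      unfold blocksOf
      simp only [Finset.mem_filter, Finset.mem_image, Finset.mem_sdiff, Finset.mem_powersetCard]
      constructor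
      · rintro ⟨⟨e, ⟨⟨-, he8⟩, heC⟩, rfl⟩, hqb⟩
        have hsub : e ⊆ qᶜ := by
          have := Finset.compl_subset_compl.2 hqb
          rwa [compl_compl] at this
        exact ⟨e, ⟨⟨hsub, he8⟩, fun h => heC h.1⟩, rfl⟩
      · rintro ⟨e, ⟨⟨hsub, he8⟩, heC⟩, rfl⟩
        refine ⟨⟨e, ⟨⟨Finset.subset_univ _, he8⟩, fun h => heC ⟨h, hsub⟩⟩, rfl⟩, ?_⟩
        have := Finset.compl_subset_compl.2 hsub
        rwa [compl_compl] at this
    rw [h2, Finset.card_image_of_injective _ compl_injective]
    have h3 : C.filter (fun e => e ⊆ qᶜ) ⊆ qᶜ.powersetCard 8 := by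
      intro e he
      rw [Finset.mem_filter] at he
      rw [Finset.mem_powersetCard]
      exact ⟨he.2, hC e he.1⟩
    have h4 := Finset.card_sdiff_add_card_eq_card h3
    rw [Finset.card_powersetCard, hS] at h4
    have h5 : Nat.choose (8 + 1) 8 = 9 := by decide
    rw [h5] at h4
    rcases Nat.even_or_odd ((qᶜ.powersetCard 8) \ (C.filter (fun e => e ⊆ qᶜ))).card with h6 | h6
    · exfalso
      have h7 := h6.add h1
      rw [h4] at h7
      exact absurd h7 (by decide)
    · exact h6

/-- an odd cover has an odd number of blocks -/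
theorem OddCover.odd_card {B : Finset (Finset (Fin 13))} (hB : OddCover B) : Odd B.card := by
  have h1 : ∑ q ∈ Finset.powersetCard 4 (Finset.univ : Finset (Fin 13)),
      (B.filter fun b => q ⊆ b).card = 5 * B.card := by
    have h2 : ∀ q ∈ Finset.powersetCard 4 (Finset.univ : Finset (Fin 13)),
        (B.filter fun b => q ⊆ b).card = ∑ b ∈ B, if q ⊆ b then 1 else 0 := by
      intro q _
      rw [Finset.card_filter]
    rw [Finset.sum_congr rfl h2, Finset.sum_comm]
    have h3 : ∀ b ∈ B, (∑ q ∈ Finset.powersetCard 4 (Finset.univ : Finset (Fin 13)),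
        if q ⊆ b then 1 else 0) = 5 := by
      intro b hb
      rw [← Finset.card_filter]
      have h4 : (Finset.powersetCard 4 (Finset.univ : Finset (Fin 13))).filter (fun q => q ⊆ b) =
          b.powersetCard 4 := by
        ext q
        simp only [Finset.mem_filter, Finset.mem_powersetCard]
        constructor
        · rintro ⟨⟨-, h5⟩, h6⟩
          exact ⟨h6, h5⟩
        · rintro ⟨h6, h5⟩
          exact ⟨⟨Finset.subset_univ _, h5⟩, h6⟩
      rw [h4, Finset.card_powersetCard, hB.1 b hb]
      decide
    rw [Finset.sum_congr rfl h3, Finset.sum_const, smul_eq_mul, mul_comm]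
  have h2 : Odd (∑ q ∈ Finset.powersetCard 4 (Finset.univ : Finset (Fin 13)),
      (B.filter fun b => q ⊆ b).card) := by
    rw [Finset.odd_sum_iff_odd_card_odd]
    have h3 : (Finset.powersetCard 4 (Finset.univ : Finset (Fin 13))).filter
        (fun q => Odd (B.filter fun b => q ⊆ b).card) =
        Finset.powersetCard 4 (Finset.univ : Finset (Fin 13)) := by
      rw [Finset.filter_eq_self]
      intro q hq
      exact hB.2 q (Finset.mem_powersetCard.1 hq).2
    rw [h3, Finset.card_powersetCard, Finset.card_univ, Fintype.card_fin]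
    decide
  rw [h1] at h2
  exact (Nat.odd_mul.1 h2).2

/-- REDUCTION: if every odd `(13,5,4)`-cover has at least 159 blocks, then the frozen statement
S10098 holds. -/
theorem S10098_of_min_odd_cover
    (hmin : ∀ B : Finset (Finset (Fin 13)), OddCover B → 159 ≤ B.card) :
    ¬ (∀ k : ℕ, Even k → 2 ≤ k → ∀ n : ℕ,
      ∀ H : Finset (Finset (Fin n)),
        (∀ e ∈ H, e.card = k) →
        (∀ S : Finset (Fin n), S.card = k + 1 → ¬ (S.powersetCard k ⊆ H)) →
        ∃ C : Finset (Finset (Fin n)),
          (∀ e ∈ C, e.card = k) ∧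
          (∀ S : Finset (Fin n), S.card = k + 1 →
            Even ((C.filter (fun e => e ⊆ S)).card)) ∧
          H.card ≤ C.card) := by
  intro h
  obtain ⟨H, hH8, hHfree, hHcard⟩ := exists_H
  obtain ⟨C, hC8, hCeven, hle⟩ := h 8 (by decide) (by norm_num) 13 H hH8 hHfree
  exact aux_final (hmin _ (oddCover_blocksOf C hC8 hCeven)) (blocksOf_card C hC8) hHcard hle

/-- the same with the parity used: it is enough to exclude odd covers with at most 157 blocks -/
theorem S10098_of_no_odd_cover
    (hmin : ∀ B : Finset (Finset (Fin 13)), OddCover B → B.card ≤ 157 → False) :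
    ¬ (∀ k : ℕ, Even k → 2 ≤ k → ∀ n : ℕ,
      ∀ H : Finset (Finset (Fin n)),
        (∀ e ∈ H, e.card = k) →
        (∀ S : Finset (Fin n), S.card = k + 1 → ¬ (S.powersetCard k ⊆ H)) →
        ∃ C : Finset (Finset (Fin n)),
          (∀ e ∈ C, e.card = k) ∧
          (∀ S : Finset (Fin n), S.card = k + 1 →
            Even ((C.filter (fun e => e ⊆ S)).card)) ∧
          H.card ≤ C.card) := by
  refine S10098_of_min_odd_cover fun B hB => ?_
  by_contra hlt
  obtain ⟨t, ht⟩ := hB.odd_card
  exact hmin B hB (by omega)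

end Pool.Agent.Helper89.CV
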