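import Pool.Agent.Helper89.CV.ZRoot
import Pool.Agent.Helper80.TY.ZRoots
import Pool.Agent.Helper25.EN.Tab

/-!
MP_8ee768_co, project TH-Y', stage Z: the composition.

`h8_of` proves the hypothesis `h8` of the case `(0,0)` from the counts of the tables over `repA`
and `repB` and from the 412 + 838 pair roots `rootsA`, `rootsB`.
-/

set_option autoImplicit false

namespace Pool.Agent.Helper89.CV

open Finset
open Pool.Agent.Helper97.CV
open Pool.Agent.Helper79.CV
open Pool.Agent.Helper67.TY (repA repB)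
open Pool.Agent.Helper25.EN (CountA CountB allE_A0 allE_B0 tabOK_A tabOK_B)
open Pool.Agent.Helper80.TY (rootsA rootsB dead_A dead_B)
open Pool.Agent.Gen.TY.EN (a0_0 b0_0)

/-- the pairs of the list are dead -/
def ZRows (T : ℕ) (tab : List ℕ) (l : List (ℕ × ℕ)) : Prop :=
  ∀ p ∈ l, PDead ZH T (fam 11 4 (tab.getD p.1 0)) (fam 11 4 (tab.getD p.2 0))

theorem ZRows.nil (T : ℕ) (tab : List ℕ) : ZRows T tab [] := fun _ h => absurd h List.not_mem_nil

theorem ZRows.append {T : ℕ} {tab : List ℕ} {l l' : List (ℕ × ℕ)} (h : ZRows T tab l)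
    (h' : ZRows T tab l') : ZRows T tab (l ++ l') := by
  intro p hp
  rcases List.mem_append.1 hp with hp | hp
  · exact h p hp
  · exact h' p hp

theorem ZRows.cons {T : ℕ} {tab : List ℕ} {i j : ℕ} {l : List (ℕ × ℕ)}
    (h : PDead ZH T (fam 11 4 (tab.getD i 0)) (fam 11 4 (tab.getD j 0)))
    (h' : ZRows T tab l) : ZRows T tab ((i, j) :: l) := by
  intro p hp
  rcases List.mem_cons.1 hp with rfl | hp
  · exact h
  · exact h' p hp

/-- the first part and the next slice -/
theorem ZRows.slice {T : ℕ} {tab : List ℕ} {l : List (ℕ × ℕ)} {k : ℕ} (n : ℕ)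
    (h : ZRows T tab (l.take k)) (h' : ZRows T tab ((l.drop k).take n)) :
    ZRows T tab (l.take (k + n)) := by
  rw [List.take_add]
  exact h.append h'

theorem ZRows.of_take {T : ℕ} {tab : List ℕ} {l : List (ℕ × ℕ)} {k : ℕ} (hk : l.length ≤ k)
    (h : ZRows T tab (l.take k)) : ZRows T tab l := by
  rwa [List.take_of_length_le hk] at h

/-- one pair from a dead root -/
theorem pdead_getD {T : ℕ} {tab : List ℕ} (hT : T < 2 ^ 165) (htab : ∀ i, tab.getD i 0 < 2 ^ 330)
    {i j : ℕ}
    (h : Pool.Agent.Helper55.TY.RootDead (fun B => ZH B 12 11)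
      (zA T (tab.getD i 0) (tab.getD j 0)) zM) :
    PDead ZH T (fam 11 4 (tab.getD i 0)) (fam 11 4 (tab.getD j 0)) :=
  pdead_of_root hT (htab i) (htab j) h

theorem getD_lt_of_all {tab : List ℕ} (h : (tab.all fun e => Nat.blt e (2 ^ 330)) = true) (i : ℕ) :
    tab.getD i 0 < 2 ^ 330 := by
  rw [List.getD_eq_getElem?_getD]
  rcases Nat.lt_or_ge i tab.length with hi | hi
  · rw [List.getElem?_eq_getElem hi, Option.getD_some]
    exact (Nat.blt_eq (x := _) (y := _)).mp (List.all_eq_true.1 h _ (List.getElem_mem hi))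
  · rw [List.getElem?_eq_none hi, Option.getD_none]
    exact Nat.pos_of_ne_zero (NeZero.ne _)

theorem a0_lt : ∀ i, a0_0.getD i 0 < 2 ^ 330 := getD_lt_of_all (by decide +kernel)

theorem b0_lt : ∀ i, b0_0.getD i 0 < 2 ^ 330 := getD_lt_of_all (by decide +kernel)

/-- **stage Z: no cover with `MM = 0, 0, 8, .., 8`** -/
theorem h8_of (hA : CountA) (hB : CountB) (dA : ZRows repA a0_0 rootsA)
    (dB : ZRows repB b0_0 rootsB) : ∀ B x y, ZH B x y → False := by
  intro B x y h
  have h1 := (tabOK_A hA).1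
  have h2 := (tabOK_B hB).1
  rw [allE_A0] at h1
  rw [allE_B0] at h2
  exact zh_false h1 h2 (dead_A dA) (dead_B dB) h

end Pool.Agent.Helper89.CV
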