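import Pool.Agent.Helper89.CV.ZOrb
import Pool.Agent.Helper55.TY.Root

/-!
MP_8ee768_co, project TH-Y', stage Z: pair roots as codes.

`zA T e f` is the code of the blocks meeting `{11, 12}` of a cover with pair link `fam 11 3 T`
and sides `fam 11 4 e`, `fam 11 4 f`; `zM` is the mask of all blocks meeting `{11, 12}`.
-/

set_option autoImplicit false

namespace Pool.Agent.Helper89.CV

open Finset
open Pool.Agent.Helper97.CV
open Pool.Agent.Helper79.CV
open Pool.Agent.Helper55.TY (RootDead Fits)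

/-- the mask of the blocks meeting `{11, 12}` -/
def zM : ℕ := (2 ^ 825 - 1) <<< 462

/-- the code of the blocks meeting `{11, 12}` -/
def zA (T e f : ℕ) : ℕ := (f + 2 ^ 330 * (e + 2 ^ 330 * T)) <<< 462

theorem enc_side (B : Finset (Finset (Fin 13))) (p q : Fin 13) (h : (p = 12 ∧ q = 11) ∨
    (p = 11 ∧ q = 12)) : enc 11 4 (side B p q) = enc 11 4 (link B p) := by
  refine Nat.eq_of_testBit_eq fun i => ?_
  by_cases hi : i < (L 11 4).length
  · rw [testBit_enc _ hi, testBit_enc _ hi]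
    have h1 := ofMask_getElem_sub (n := 11) (k := 4) (by norm_num) hi
    have h2 : q ∉ ofMask (L 11 4)[i] := by
      intro h3
      have h4 := mk_lt_iff.1 h1.1 q h3
      rcases h with h | h
      · rw [h.2] at h4
        exact absurd h4 (by decide)
      · rw [h.2] at h4
        exact absurd h4 (by decide)
    unfold side
    congr 1
    rw [mem_filter]
    simp only [h2, not_false_eq_true, and_true]
  · rw [testBit_enc_ge _ (by omega), testBit_enc_ge _ (by omega)]

/-- the code of a cover in the pair frame -/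
theorem enc_pair {B : Finset (Finset (Fin 13))} {T e f : ℕ} (hT : T < 2 ^ 165)
    (he : e < 2 ^ 330) (hf : f < 2 ^ 330) (hl : link (link B 12) 11 = fam 11 3 T)
    (h1 : side B 12 11 = fam 11 4 e) (h2 : side B 11 12 = fam 11 4 f) :
    enc 13 5 B = enc 11 5 B + 2 ^ 462 * (f + 2 ^ 330 * (e + 2 ^ 330 * T)) := by
  have c1 : (12 : ℕ).choose 5 = 792 := by decide
  have c2 : (11 : ℕ).choose 4 = 330 := by decide
  have c3 : (11 : ℕ).choose 5 = 462 := by decide
  have c4 : (11 : ℕ).choose 3 = 165 := by decide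
  have a1 := enc_split 12 4 B
  have a2 := enc_split 11 4 B
  have a3 := enc_split 11 3 (link B 12)
  have b1 : enc 11 4 (link B 12) = e := by
    rw [← enc_side B 12 11 (Or.inl ⟨rfl, rfl⟩), h1]
    exact enc_fam (by norm_num) (by rw [c2]; exact he)
  have b2 : enc 11 4 (link B 11) = f := by
    rw [← enc_side B 11 12 (Or.inr ⟨rfl, rfl⟩), h2]
    exact enc_fam (by norm_num) (by rw [c2]; exact hf)
  have b3 : enc 11 3 (link (link B 12) 11) = T := by
    rw [hl]
    exact enc_fam (by norm_num) (by rw [c4]; exact hT)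
  have v12 : (12 : Fin 13).val = 12 := rfl
  have v11 : (11 : Fin 13).val = 11 := rfl
  rw [v12] at a1
  rw [v11] at a2 a3
  rw [b2] at a2
  rw [b1, b3] at a3
  norm_num at a1 a2 a3
  rw [c1] at a1
  rw [c3] at a2
  rw [c2] at a3
  have e1 : (2 : ℕ) ^ 792 = 2 ^ 462 * 2 ^ 330 := by
    rw [← pow_add]
  rw [a1, a2, a3, e1]
  generalize (2 : ℕ) ^ 462 = P
  generalize (2 : ℕ) ^ 330 = R
  ring

theorem fits_pair {B : Finset (Finset (Fin 13))} {T e f : ℕ} (hT : T < 2 ^ 165)
    (he : e < 2 ^ 330) (hf : f < 2 ^ 330) (hl : link (link B 12) 11 = fam 11 3 T)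
    (h1 : side B 12 11 = fam 11 4 e) (h2 : side B 11 12 = fam 11 4 f) :
    Fits B (zA T e f) zM := by
  have h3 := enc_pair hT he hf hl h1 h2
  have h4 := enc_lt 11 5 B
  have c3 : (11 : ℕ).choose 5 = 462 := by decide
  rw [c3] at h4
  unfold Fits zA zM
  obtain ⟨g, hg⟩ : ∃ g, g = f + 2 ^ 330 * (e + 2 ^ 330 * T) := ⟨_, rfl⟩
  rw [← hg] at h3 ⊢
  have h5 : g < 2 ^ 825 := by
    have e1 : (2 : ℕ) ^ 825 = 2 ^ 330 * (2 ^ 330 * 2 ^ 165) := by rw [← pow_add, ← pow_add]
    have e2 : e + 2 ^ 330 * T < 2 ^ 330 * 2 ^ 165 := by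
      calc e + 2 ^ 330 * T < 2 ^ 330 + 2 ^ 330 * T := by omega
        _ = 2 ^ 330 * (T + 1) := by ring
        _ ≤ 2 ^ 330 * 2 ^ 165 := Nat.mul_le_mul_left _ (by omega)
    rw [hg, e1]
    calc f + 2 ^ 330 * (e + 2 ^ 330 * T) < 2 ^ 330 + 2 ^ 330 * (e + 2 ^ 330 * T) := by omega
      _ = 2 ^ 330 * (e + 2 ^ 330 * T + 1) := by ring
      _ ≤ 2 ^ 330 * (2 ^ 330 * 2 ^ 165) := Nat.mul_le_mul_left _ (by omega)
  rw [h3, Nat.add_comm, Nat.mul_comm]
  refine Nat.eq_of_testBit_eq fun i => ?_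
  rw [Nat.testBit_and, Nat.testBit_shiftLeft, Nat.testBit_shiftLeft,
    Nat.testBit_two_pow_sub_one, Nat.mul_comm, Nat.testBit_two_pow_mul_add _ h4]
  by_cases hi : i < 462
  · rw [if_pos hi, decide_eq_false (by omega), Bool.false_and, Bool.false_and, Bool.and_false]
  · rw [if_neg hi, decide_eq_true (by omega), Bool.true_and, Bool.true_and]
    by_cases h6 : i - 462 < 825
    · rw [decide_eq_true h6, Bool.and_true]
    · rw [decide_eq_false h6, Bool.and_false]
      exact (Nat.testBit_eq_false_of_lt (lt_of_lt_of_le h5 (Nat.pow_le_pow_right (by norm_num)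
        (by omega)))).symm

/-- from a dead root to a dead pair of table entries -/
theorem pdead_of_root {T e f : ℕ} (hT : T < 2 ^ 165) (he : e < 2 ^ 330) (hf : f < 2 ^ 330)
    (h : RootDead (fun B => ZH B 12 11) (zA T e f) zM) :
    PDead ZH T (fam 11 4 e) (fam 11 4 f) :=
  fun B hB hl h1 h2 => h B hB (fits_pair hT he hf hl h1 h2)

end Pool.Agent.Helper89.CV
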